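import Pool.Agent.Results.MP_5333ad_co.LinearInDimension

/-! # The edge boundary of a product set -/

set_option autoImplicit false

namespace Pool.Agent.Y384.BX.Bnd

open Finset Pool.Agent.Results.MP_5333ad_co.LinearInDimension

variable {d : ℕ}

/-- the two signs -/
def sg (b : Bool) : ℤ := if b then 1 else -1

lemma sg_ne_zero (b : Bool) : sg b ≠ 0 := by cases b <;> simp [sg]

lemma abs_sg (b : Bool) : |sg b| = 1 := by cases b <;> simp [sg]

lemma sg_inj {b c : Bool} (h : sg b = sg c) : b = c := by
  cases b <;> cases c <;> simp [sg] at h ⊢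

lemma adj_nb (i : Fin d) (b : Bool) (x : Fin d → ℤ) : LatticeAdj x (nb i (sg b) x) := by
  unfold LatticeAdj
  rw [← Finset.add_sum_erase Finset.univ _ (Finset.mem_univ i)]
  have h1 : |x i - nb i (sg b) x i| = 1 := by
    rw [nb, Function.update_self]
    have : x i - (x i + sg b) = -sg b := by ring
    rw [this, abs_neg, abs_sg]
  have h2 : ∑ j ∈ Finset.univ.erase i, |x j - nb i (sg b) x j| = 0 := by
    apply Finset.sum_eq_zero
    intro j hj
    rw [nb, Function.update_of_ne (Finset.ne_of_mem_erase hj), sub_self, abs_zero]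
  rw [h1, h2, add_zero]

lemma exists_nb {x y : Fin d → ℤ} (hxy : LatticeAdj x y) : ∃ i b, nb i (sg b) x = y := by
  have hne : x ≠ y := by
    rintro rfl
    unfold LatticeAdj at hxy
    simp at hxy
  obtain ⟨i, hi⟩ := Function.ne_iff.1 hne
  unfold LatticeAdj at hxy
  rw [← Finset.add_sum_erase Finset.univ _ (Finset.mem_univ i)] at hxy
  have h1 : 1 ≤ |x i - y i| := Int.one_le_abs (sub_ne_zero.2 hi)
  have h2 : 0 ≤ ∑ j ∈ Finset.univ.erase i, |x j - y j| := Finset.sum_nonneg fun j _ => abs_nonneg _
  have h3 : |x i - y i| = 1 := by omega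
  have h4 : ∑ j ∈ Finset.univ.erase i, |x j - y j| = 0 := by omega
  have h5 : ∀ j, j ≠ i → x j = y j := by
    intro j hj
    have := (Finset.sum_eq_zero_iff_of_nonneg (fun j _ => abs_nonneg _)).1 h4 j
      (Finset.mem_erase.2 ⟨hj, Finset.mem_univ j⟩)
    rw [abs_eq_zero] at this
    omega
  rcases abs_eq (show (0 : ℤ) ≤ 1 by norm_num) |>.1 h3 with h | h
  · refine ⟨i, false, ?_⟩
    funext j
    by_cases hj : j = i
    · subst hj
      rw [nb, Function.update_self]
      simp only [sg]
      simp
      omega
    · rw [nb, Function.update_of_ne hj, h5 j hj]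
  · refine ⟨i, true, ?_⟩
    funext j
    by_cases hj : j = i
    · subst hj
      rw [nb, Function.update_self]
      simp only [sg]
      simp
      omega
    · rw [nb, Function.update_of_ne hj, h5 j hj]

lemma finite_boundary (S : Finset (Fin d → ℤ)) : (edgeBoundary S).Finite := by
  have h : edgeBoundary S ⊆ ⋃ i : Fin d, ⋃ b : Bool,
      (fun x => s(x, nb i (sg b) x)) '' (S : Set (Fin d → ℤ)) := by
    rintro e ⟨x, y, hx, -, hxy, rfl⟩
    obtain ⟨i, b, rfl⟩ := exists_nb hxy
    exact Set.mem_iUnion.2 ⟨i, Set.mem_iUnion.2 ⟨b, x, mem_coe.2 hx, rfl⟩⟩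
  refine Set.Finite.subset ?_ h
  exact Set.finite_iUnion fun i => Set.finite_iUnion fun b => (S.finite_toSet).image _

/-- the elements of `A` whose neighbour in the given direction is not in `A` -/
def ex (A : Finset ℤ) (b : Bool) : Finset ℤ := A.filter (fun c => c + sg b ∉ A)

/-- the points of the product at which one can leave it in direction `i` -/
def E (A : Fin d → Finset ℤ) (i : Fin d) (b : Bool) : Finset (Fin d → ℤ) :=
  Fintype.piFinset fun j => if j = i then ex (A i) b else A j

lemma card_E (A : Fin d → Finset ℤ) (i : Fin d) (b : Bool) :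
    (E A i b).card * (A i).card = (ex (A i) b).card * (Fintype.piFinset A).card := by
  rw [E, Fintype.card_piFinset, Fintype.card_piFinset]
  rw [← Finset.mul_prod_erase Finset.univ _ (Finset.mem_univ i),
    ← Finset.mul_prod_erase Finset.univ (fun j => (A j).card) (Finset.mem_univ i)]
  rw [if_pos rfl]
  have h : ∏ x ∈ univ.erase i, (if x = i then ex (A i) b else A x).card =
      ∏ x ∈ univ.erase i, (A x).card := by
    apply Finset.prod_congr rfl
    intro j hj
    rw [if_neg (Finset.ne_of_mem_erase hj)]
  rw [h]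
  ring

lemma E_spec {A : Fin d → Finset ℤ} {i : Fin d} {b : Bool} {x : Fin d → ℤ} (hx : x ∈ E A i b) :
    x ∈ Fintype.piFinset A ∧ nb i (sg b) x ∉ Fintype.piFinset A := by
  rw [E, Fintype.mem_piFinset] at hx
  have hi := hx i
  rw [if_pos rfl, ex, mem_filter] at hi
  constructor
  · rw [Fintype.mem_piFinset]
    intro j
    by_cases hj : j = i
    · rw [hj]
      exact hi.1
    · have := hx j
      rw [if_neg hj] at this
      exact this
  · rw [Fintype.mem_piFinset]
    intro h
    have := h i
    rw [nb, Function.update_self] at this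
    exact hi.2 this

theorem boundary_ge (A : Fin d → Finset ℤ) :
    ∑ i : Fin d, ∑ b : Bool, (E A i b).card ≤ (edgeBoundary (Fintype.piFinset A)).ncard := by
  classical
  set D : Finset (Σ _ : Fin d × Bool, (Fin d → ℤ)) :=
    (univ : Finset (Fin d × Bool)).sigma (fun p => E A p.1 p.2) with hD
  have hcard : D.card = ∑ i : Fin d, ∑ b : Bool, (E A i b).card := by
    rw [hD, card_sigma, ← univ_product_univ, sum_product]
  rw [← hcard, ← Set.ncard_coe_finset]
  refine Set.ncard_le_ncard_of_injOn (fun p => s(p.2, nb p.1.1 (sg p.1.2) p.2)) ?_ ?_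
    (finite_boundary _)
  · rintro ⟨⟨i, b⟩, x⟩ hx
    rw [mem_coe, hD, mem_sigma] at hx
    obtain ⟨h1, h2⟩ := E_spec hx.2
    exact ⟨x, _, h1, h2, adj_nb i b x, rfl⟩
  · rintro ⟨⟨i, b⟩, x⟩ hx ⟨⟨i', b'⟩, x'⟩ hx' h
    rw [mem_coe, hD, mem_sigma] at hx hx'
    obtain ⟨h1, h2⟩ := E_spec hx.2
    obtain ⟨h1', h2'⟩ := E_spec hx'.2
    simp only at h h1 h2 h1' h2'
    rw [Sym2.eq_iff] at h
    rcases h with ⟨h3, h4⟩ | ⟨h3, h4⟩
    · subst h3
      have hi : i = i' := by
        by_contra hne
        have h5 := congrFun h4 i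
        rw [nb, nb, Function.update_self, Function.update_of_ne hne] at h5
        have := sg_ne_zero b
        omega
      subst hi
      have h5 := congrFun h4 i
      rw [nb, nb, Function.update_self, Function.update_self] at h5
      have hb : b = b' := sg_inj (by omega)
      subst hb
      rfl
    · rw [h3] at h1
      exact absurd h1 h2'

lemma ex_pos {A : Finset ℤ} (hA : A.Nonempty) (b : Bool) : 1 ≤ (ex A b).card := by
  rw [Nat.one_le_iff_ne_zero, ← Nat.pos_iff_ne_zero, card_pos]
  cases b with
  | true =>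
    refine ⟨A.max' hA, mem_filter.2 ⟨A.max'_mem hA, fun h => ?_⟩⟩
    have := A.le_max' _ h
    simp [sg] at this
  | false =>
    refine ⟨A.min' hA, mem_filter.2 ⟨A.min'_mem hA, fun h => ?_⟩⟩
    have := A.min'_le _ h
    simp [sg] at this

lemma interval_of_ex {A : Finset ℤ} (hA : A.Nonempty) (h : (ex A true).card ≤ 1) :
    ∃ c : ℤ, A = Ico c (c + A.card) := by
  set c := A.min' hA with hc
  set M := A.max' hA with hM
  have hmem : ∀ n : ℕ, c + n ≤ M → c + n ∈ A := by
    intro n
    induction n with
    | zero =>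
      intro _
      simp only [Nat.cast_zero, add_zero]
      exact A.min'_mem hA
    | succ n ih =>
      intro hn
      push_cast at hn
      have h1 := ih (by omega)
      by_contra hno
      have h2 : c + n ∈ ex A true := by
        refine mem_filter.2 ⟨h1, ?_⟩
        have : c + (n : ℤ) + sg true = c + ((n + 1 : ℕ) : ℤ) := by
          simp only [sg]
          push_cast
          ring
        rw [this]
        exact hno
      have h3 : M ∈ ex A true := by
        refine mem_filter.2 ⟨A.max'_mem hA, fun h => ?_⟩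
        have := A.le_max' _ h
        simp [sg] at this
        omega
      have h4 := card_le_one.1 h _ h2 _ h3
      omega
  have hA2 : A = Icc c M := by
    ext x
    rw [mem_Icc]
    constructor
    · intro hx
      exact ⟨A.min'_le x hx, A.le_max' x hx⟩
    · rintro ⟨h1, h2⟩
      have := hmem (x - c).toNat (by omega)
      have e : c + ((x - c).toNat : ℤ) = x := by omega
      rw [e] at this
      exact this
  refine ⟨c, ?_⟩
  have hcM : c ≤ M := A.min'_le _ (A.max'_mem hA)
  have hcard : (A.card : ℤ) = M + 1 - c := by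
    rw [hA2, Int.card_Icc]
    omega
  rw [hcard]
  conv_lhs => rw [hA2]
  ext x
  rw [mem_Icc, mem_Ico]
  omega

end Pool.Agent.Y384.BX.Bnd
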