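import Pool.Agent.Y384.BX.Bnd

/-! # Near optimal product sets are close to cubes -/

set_option autoImplicit false

namespace Pool.Agent.Y384.BX.Upper

open Finset Pool.Agent.Results.MP_5333ad_co.LinearInDimension Pool.Agent.Y384.BX.Bnd

variable {d : ℕ}

/-! ### The real variable core -/

lemma exp_quad {t : ℝ} (ht : t ≤ 2) : 1 - t + t ^ 2 / 4 ≤ Real.exp (-t) := by
  have h1 : -(t / 2) + 1 ≤ Real.exp (-(t / 2)) := Real.add_one_le_exp _
  have h2 : Real.exp (-t) = Real.exp (-(t / 2)) ^ 2 := by
    rw [← Real.exp_nat_mul]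
    congr 1
    push_cast
    ring
  rw [h2]
  have h3 : (-(t / 2) + 1) ^ 2 ≤ Real.exp (-(t / 2)) ^ 2 :=
    pow_le_pow_left₀ (by linarith) h1 2
  nlinarith [h3]

theorem real_core (hd : 1 ≤ d) (t m : Fin d → ℝ) (ε : ℝ) (hε : 0 < ε) (hm : ∀ i, 1 ≤ m i)
    (ht : ∑ i, t i = 0) (hsum : ∑ i, m i * Real.exp (-(t i)) ≤ d * (1 + ε))
    (hx : d * √ε ≤ 1 / 12) :
    (∀ j, m j < 3 / 2) ∧ ∑ i, |t i| ≤ 2 * (d * √ε) := by
  have hd0 : (1 : ℝ) ≤ d := by exact_mod_cast hd
  have hs : 0 < √ε := Real.sqrt_pos.2 hε
  have hss : √ε * √ε = ε := Real.mul_self_sqrt hε.le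
  have hde : (d : ℝ) * ε ≤ 1 / 144 := by
    have h1 : (d : ℝ) * ε ≤ (d * √ε) ^ 2 := by
      have : (d * √ε) ^ 2 = (d : ℝ) * (d * ε) := by
        rw [mul_pow, Real.sq_sqrt hε.le]
        ring
      rw [this]
      have : (0 : ℝ) ≤ d * ε := by positivity
      nlinarith
    have h2 : (d * √ε) ^ 2 ≤ (1 / 12) ^ 2 := pow_le_pow_left₀ (by positivity) hx 2
    linarith
  -- the nonnegative function
  have hphi : ∀ i, 0 ≤ Real.exp (-(t i)) - 1 + t i := by
    intro i
    have := Real.add_one_le_exp (-(t i))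
    linarith
  have hsum2 : ∑ i, (Real.exp (-(t i)) - 1 + t i) + ∑ i, (m i - 1) * Real.exp (-(t i)) ≤ d * ε := by
    have h1 : ∑ i, (Real.exp (-(t i)) - 1 + t i) + ∑ i, (m i - 1) * Real.exp (-(t i)) =
        ∑ i, m i * Real.exp (-(t i)) - d + ∑ i, t i := by
      rw [← Finset.sum_add_distrib]
      have h2 : ∀ i, (Real.exp (-(t i)) - 1 + t i) + (m i - 1) * Real.exp (-(t i)) =
          m i * Real.exp (-(t i)) + t i - 1 := by
        intro i
        ring
      rw [Finset.sum_congr rfl (fun i _ => h2 i), Finset.sum_sub_distrib, Finset.sum_add_distrib]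
      simp
      ring
    rw [h1, ht]
    linarith
  have hmm : ∀ i, 0 ≤ (m i - 1) * Real.exp (-(t i)) := fun i =>
    mul_nonneg (by linarith [hm i]) (Real.exp_pos _).le
  have hA : ∑ i, (Real.exp (-(t i)) - 1 + t i) ≤ d * ε := by
    have : 0 ≤ ∑ i, (m i - 1) * Real.exp (-(t i)) := Finset.sum_nonneg fun i _ => hmm i
    linarith
  have hB : ∑ i, (m i - 1) * Real.exp (-(t i)) ≤ d * ε := by
    have : 0 ≤ ∑ i, (Real.exp (-(t i)) - 1 + t i) := Finset.sum_nonneg fun i _ => hphi i
    linarith
  have hA1 : ∀ i, Real.exp (-(t i)) - 1 + t i ≤ d * ε := fun i =>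
    (Finset.single_le_sum (f := fun i => Real.exp (-(t i)) - 1 + t i) (fun i _ => hphi i)
      (Finset.mem_univ i)).trans hA
  have hB1 : ∀ i, (m i - 1) * Real.exp (-(t i)) ≤ d * ε := fun i =>
    (Finset.single_le_sum (f := fun i => (m i - 1) * Real.exp (-(t i))) (fun i _ => hmm i)
      (Finset.mem_univ i)).trans hB
  have ht2 : ∀ i, t i ≤ 2 := by
    intro i
    have h1 := hA1 i
    have h2 := Real.exp_pos (-(t i))
    linarith
  have hsq : ∑ i, t i ^ 2 ≤ 4 * (d * ε) := by
    have h1 : ∑ i, t i ^ 2 / 4 ≤ ∑ i, (Real.exp (-(t i)) - 1 + t i) := by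
      apply Finset.sum_le_sum
      intro i _
      have := exp_quad (ht2 i)
      linarith
    rw [← Finset.sum_div] at h1
    linarith
  refine ⟨?_, ?_⟩
  · intro j
    by_contra hcon
    push Not at hcon
    have h1 := hB1 j
    have h2 : t j ^ 2 ≤ 4 * (d * ε) :=
      (Finset.single_le_sum (f := fun i => t i ^ 2) (fun i _ => sq_nonneg _)
        (Finset.mem_univ j)).trans hsq
    have h3 : t j ≤ 1 / 2 := by nlinarith
    have h4 := Real.add_one_le_exp (-(t j))
    have h5 : (1 / 2 : ℝ) * (1 / 2) ≤ (m j - 1) * Real.exp (-(t j)) := by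
      apply mul_le_mul <;> linarith
    linarith
  · have h1 : (∑ i, |t i|) ^ 2 ≤ (2 * (d * √ε)) ^ 2 := by
      calc (∑ i, |t i|) ^ 2 ≤ ((Finset.univ : Finset (Fin d)).card : ℝ) * ∑ i, |t i| ^ 2 :=
            sq_sum_le_card_mul_sum_sq
        _ = d * ∑ i, t i ^ 2 := by
            rw [Finset.card_univ, Fintype.card_fin]
            simp only [sq_abs]
        _ ≤ d * (4 * (d * ε)) := by
            apply mul_le_mul_of_nonneg_left hsq (by positivity)
        _ = (2 * (d * √ε)) ^ 2 := by
            rw [mul_pow, mul_pow, Real.sq_sqrt hε.le]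
            ring
    exact le_of_sq_le_sq h1 (by positivity)

/-! ### From the boundary to the real variables -/

lemma card_pos_of {A : Fin d → Finset ℤ} (hA : ∀ i, (A i).Nonempty) (i : Fin d) :
    (0 : ℝ) < (A i).card := by
  exact_mod_cast (hA i).card_pos

lemma card_prod (A : Fin d → Finset ℤ) :
    ((Fintype.piFinset A).card : ℝ) = ∏ i, ((A i).card : ℝ) := by
  rw [Fintype.card_piFinset, Nat.cast_prod]

lemma V_pos {A : Fin d → Finset ℤ} (hA : ∀ i, (A i).Nonempty) :
    (0 : ℝ) < (Fintype.piFinset A).card := by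
  rw [card_prod]
  exact Finset.prod_pos fun i _ => card_pos_of hA i

/-- the weight of a direction -/
noncomputable def mm (A : Finset ℤ) : ℝ := (((ex A true).card : ℝ) + (ex A false).card) / 2

/-- the logarithm of the side length of the cube of the same volume -/
noncomputable def LL (A : Fin d → Finset ℤ) : ℝ := Real.log (Fintype.piFinset A).card / d

/-- the deviation of the side length -/
noncomputable def tt (A : Fin d → Finset ℤ) (i : Fin d) : ℝ := Real.log (A i).card - LL A

lemma one_le_mm {A : Finset ℤ} (hA : A.Nonempty) : 1 ≤ mm A := by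
  have h1 : (1 : ℝ) ≤ (ex A true).card := by exact_mod_cast ex_pos hA true
  have h2 : (1 : ℝ) ≤ (ex A false).card := by exact_mod_cast ex_pos hA false
  unfold mm
  linarith

lemma sum_tt (hd : 1 ≤ d) {A : Fin d → Finset ℤ} (hA : ∀ i, (A i).Nonempty) :
    ∑ i, tt A i = 0 := by
  have hd0 : (d : ℝ) ≠ 0 := by
    have : (1 : ℝ) ≤ d := by exact_mod_cast hd
    positivity
  unfold tt
  rw [Finset.sum_sub_distrib, Finset.sum_const, Finset.card_univ, Fintype.card_fin, nsmul_eq_mul,
    LL, card_prod, Real.log_prod (fun i _ => (card_pos_of hA i).ne')]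
  field_simp
  ring

lemma sum_mm (hd : 1 ≤ d) {A : Fin d → Finset ℤ} (hA : ∀ i, (A i).Nonempty) {ε : ℝ}
    (hno : NearOptimal d ε (Fintype.piFinset A)) :
    ∑ i, mm (A i) * Real.exp (-(tt A i)) ≤ d * (1 + ε) := by
  have hd1 : (1 : ℝ) ≤ d := by exact_mod_cast hd
  have hd0 : (d : ℝ) ≠ 0 := by positivity
  set V : ℝ := ((Fintype.piFinset A).card : ℝ) with hV
  have hVpos : 0 < V := V_pos hA
  have h1 : ∑ i : Fin d, ∑ b : Bool, ((E A i b).card : ℝ) ≤
      2 * d * V ^ (((d : ℝ) - 1) / d) * (1 + ε) := by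
    refine le_trans ?_ hno
    exact_mod_cast boundary_ge A
  have h2 : ∀ i, ∑ b : Bool, ((E A i b).card : ℝ) = 2 * mm (A i) * V / (A i).card := by
    intro i
    have hc := card_pos_of hA i
    rw [eq_div_iff hc.ne', Fintype.sum_bool, add_mul]
    have e1 : ((E A i true).card : ℝ) * (A i).card = (ex (A i) true).card * V := by
      rw [hV]
      exact_mod_cast card_E A i true
    have e2 : ((E A i false).card : ℝ) * (A i).card = (ex (A i) false).card * V := by
      rw [hV]
      exact_mod_cast card_E A i false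
    rw [e1, e2, mm]
    ring
  have h3 : ∀ i, Real.exp (-(tt A i)) = Real.exp (LL A) / (A i).card := by
    intro i
    have hc := card_pos_of hA i
    rw [tt, neg_sub, Real.exp_sub, Real.exp_log hc]
  have h4 : V ^ (((d : ℝ) - 1) / d) = V / Real.exp (LL A) := by
    rw [Real.rpow_def_of_pos hVpos, LL, ← hV]
    nth_rewrite 2 [← Real.exp_log hVpos]
    rw [← Real.exp_sub]
    congr 1
    field_simp
  rw [Finset.sum_congr rfl (fun i _ => h2 i), h4] at h1
  have hE : 0 < Real.exp (LL A) := Real.exp_pos _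
  have h5 : ∑ i, 2 * mm (A i) * V / (A i).card =
      (2 * V / Real.exp (LL A)) * ∑ i, mm (A i) * Real.exp (-(tt A i)) := by
    rw [Finset.mul_sum]
    apply Finset.sum_congr rfl
    intro i _
    rw [h3 i]
    field_simp
  rw [h5] at h1
  have h6 : 2 * (d : ℝ) * (V / Real.exp (LL A)) * (1 + ε) =
      (2 * V / Real.exp (LL A)) * (d * (1 + ε)) := by ring
  rw [h6] at h1
  exact le_of_mul_le_mul_left h1 (by positivity)

/-! ### The cube -/

lemma exp_upper {x : ℝ} (h0 : 0 ≤ x) (hx : x ≤ 1 / 12) : Real.exp (2 * x) ≤ 1 + 12 / 5 * x := by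
  have h1 : -(2 * x) + 1 ≤ Real.exp (-(2 * x)) := Real.add_one_le_exp _
  have h2 : Real.exp (-(2 * x)) * Real.exp (2 * x) = 1 := by
    rw [← Real.exp_add]
    simp
  have h3 : 0 < Real.exp (2 * x) := Real.exp_pos _
  have h4 : (1 - 2 * x) * Real.exp (2 * x) ≤ 1 := by
    rw [← h2]
    apply mul_le_mul_of_nonneg_right _ h3.le
    linarith
  have h5 : 1 ≤ (1 - 2 * x) * (1 + 12 / 5 * x) := by nlinarith
  by_contra hcon
  push Not at hcon
  have h6 : (1 - 2 * x) * (1 + 12 / 5 * x) < (1 - 2 * x) * Real.exp (2 * x) := by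
    apply mul_lt_mul_of_pos_left hcon
    linarith
  linarith

theorem cube_close (hd : 1 ≤ d) {A : Fin d → Finset ℤ} (hA : ∀ i, (A i).Nonempty)
    (c : Fin d → ℤ) (hc : ∀ i, Finset.Ico (c i) (c i + (A i).card) = A i) {x : ℝ}
    (hx : x ≤ 1 / 12) (hsum : ∑ i, |tt A i| ≤ 2 * x) :
    ∃ k : ℕ, 1 ≤ k ∧ ((symmDiff (Fintype.piFinset A) (cube c k)).card : ℝ) ≤
      12 * x * (Fintype.piFinset A).card := by
  classical
  have hd1 : (1 : ℝ) ≤ d := by exact_mod_cast hd
  have hd0 : (d : ℝ) ≠ 0 := by positivity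
  have : NeZero d := ⟨by omega⟩
  set V : ℝ := ((Fintype.piFinset A).card : ℝ) with hV
  have hVpos : 0 < V := V_pos hA
  have hx0 : 0 ≤ x := by
    have : 0 ≤ ∑ i, |tt A i| := Finset.sum_nonneg fun i _ => abs_nonneg _
    linarith
  obtain ⟨j, -, hj⟩ := Finset.exists_min_image (Finset.univ : Finset (Fin d))
    (fun i => |tt A i|) ⟨0, Finset.mem_univ 0⟩
  have hdj : d * |tt A j| ≤ 2 * x := by
    refine le_trans ?_ hsum
    have : ∑ _i : Fin d, |tt A j| ≤ ∑ i, |tt A i| := Finset.sum_le_sum fun i hi => hj i hi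
    rw [Finset.sum_const, Finset.card_univ, Fintype.card_fin, nsmul_eq_mul] at this
    exact this
  set k : ℕ := (A j).card with hk
  have hk1 : 1 ≤ k := (hA j).card_pos
  have hkpos : (0 : ℝ) < k := by exact_mod_cast hk1
  refine ⟨k, hk1, ?_⟩
  have hcardC : ((cube c k).card : ℝ) ≤ V * Real.exp (2 * x) := by
    rw [card_cube]
    push_cast
    have e1 : (k : ℝ) ^ d = V * Real.exp (d * tt A j) := by
      have : (k : ℝ) = Real.exp (LL A + tt A j) := by
        rw [tt]
        rw [add_sub_cancel, Real.exp_log hkpos]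
      rw [this, ← Real.exp_nat_mul, mul_add, Real.exp_add]
      congr 1
      rw [LL, mul_div_cancel₀ _ hd0, Real.exp_log hVpos]
    rw [e1]
    apply mul_le_mul_of_nonneg_left _ hVpos.le
    apply Real.exp_le_exp.2
    refine le_trans ?_ hdj
    exact mul_le_mul_of_nonneg_left (le_abs_self _) (by positivity)
  have hinter : (Fintype.piFinset A) ∩ (cube c k) =
      Fintype.piFinset fun i => A i ∩ Finset.Ico (c i) (c i + k) := by
    ext y
    simp only [cube, Finset.mem_inter, Fintype.mem_piFinset]
    constructor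
    · rintro ⟨h, h'⟩ i
      exact ⟨h i, h' i⟩
    · intro h
      exact ⟨fun i => (h i).1, fun i => (h i).2⟩
  have hlow : V * Real.exp (-(4 * x)) ≤ ((Fintype.piFinset A ∩ cube c k).card : ℝ) := by
    rw [hinter, Fintype.card_piFinset, Nat.cast_prod]
    have e1 : ∀ i, ((A i).card : ℝ) * Real.exp (-(|tt A i| + |tt A j|)) ≤
        ((A i ∩ Finset.Ico (c i) (c i + k)).card : ℝ) := by
      intro i
      have hci := card_pos_of hA i
      have e2 : A i ∩ Finset.Ico (c i) (c i + k) =
          Finset.Ico (c i) (c i + (min (A i).card k : ℕ)) := by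
        have e5 : A i ∩ Finset.Ico (c i) (c i + k) =
            Finset.Ico (c i) (c i + (A i).card) ∩ Finset.Ico (c i) (c i + k) := by
          rw [hc i]
        rw [e5]
        ext y
        simp only [Finset.mem_inter, Finset.mem_Ico]
        push_cast
        omega
      rw [e2, Int.card_Ico]
      have e3 : (c i + ((min (A i).card k : ℕ) : ℤ) - c i).toNat = min (A i).card k := by
        omega
      rw [e3]
      push_cast
      apply le_min
      · have : Real.exp (-(|tt A i| + |tt A j|)) ≤ 1 := by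
          apply Real.exp_le_one_iff.2
          have h1 := abs_nonneg (tt A i)
          have h2 := abs_nonneg (tt A j)
          linarith
        nlinarith
      · have e4 : (k : ℝ) = (A i).card * Real.exp (tt A j - tt A i) := by
          have : tt A j - tt A i = Real.log k - Real.log (A i).card := by
            rw [tt, tt]
            ring
          rw [this, Real.exp_sub, Real.exp_log hkpos, Real.exp_log hci]
          field_simp
        rw [e4]
        apply mul_le_mul_of_nonneg_left _ hci.le
        apply Real.exp_le_exp.2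
        have h1 := le_abs_self (tt A i)
        have h2 := neg_abs_le (tt A j)
        linarith
    calc V * Real.exp (-(4 * x)) ≤ V * Real.exp (∑ i, -(|tt A i| + |tt A j|)) := by
          apply mul_le_mul_of_nonneg_left _ hVpos.le
          apply Real.exp_le_exp.2
          rw [Finset.sum_neg_distrib, Finset.sum_add_distrib, Finset.sum_const, Finset.card_univ,
            Fintype.card_fin, nsmul_eq_mul]
          linarith
      _ = ∏ i, ((A i).card : ℝ) * Real.exp (-(|tt A i| + |tt A j|)) := by
          rw [Finset.prod_mul_distrib, Real.exp_sum, hV, card_prod]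
      _ ≤ ∏ i, ((A i ∩ Finset.Ico (c i) (c i + k)).card : ℝ) := by
          apply Finset.prod_le_prod
          · intro i _
            positivity
          · intro i _
            exact e1 i
  have hsd : ((symmDiff (Fintype.piFinset A) (cube c k)).card : ℝ) =
      V + (cube c k).card - 2 * ((Fintype.piFinset A ∩ cube c k).card : ℝ) := by
    have h1 : (symmDiff (Fintype.piFinset A) (cube c k)).card =
        (Fintype.piFinset A \ cube c k).card + (cube c k \ Fintype.piFinset A).card := by
      rw [symmDiff_def, Finset.sup_eq_union, Finset.card_union_of_disjoint]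
      rw [Finset.disjoint_left]
      intro a ha hb
      rw [Finset.mem_sdiff] at ha hb
      exact ha.2 hb.1
    have h2 := Finset.card_sdiff_add_card_inter (Fintype.piFinset A) (cube c k)
    have h3 := Finset.card_sdiff_add_card_inter (cube c k) (Fintype.piFinset A)
    rw [Finset.inter_comm] at h3
    have h1' : ((symmDiff (Fintype.piFinset A) (cube c k)).card : ℝ) =
      ((Fintype.piFinset A \ cube c k).card : ℝ) + ((cube c k \ Fintype.piFinset A).card : ℝ) := by
      exact_mod_cast h1
    have h2' : ((Fintype.piFinset A \ cube c k).card : ℝ) +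
      ((Fintype.piFinset A ∩ cube c k).card : ℝ) = V := by
      rw [hV]
      exact_mod_cast h2
    have h3' : ((cube c k \ Fintype.piFinset A).card : ℝ) +
      ((Fintype.piFinset A ∩ cube c k).card : ℝ) = (cube c k).card := by exact_mod_cast h3
    linarith
  rw [hsd]
  have h7 := exp_upper hx0 hx
  have h8 : -(4 * x) + 1 ≤ Real.exp (-(4 * x)) := Real.add_one_le_exp _
  have h9 : V * Real.exp (2 * x) ≤ V * (1 + 12 / 5 * x) := mul_le_mul_of_nonneg_left h7 hVpos.le
  have h10 : V * (-(4 * x) + 1) ≤ V * Real.exp (-(4 * x)) := mul_le_mul_of_nonneg_left h8 hVpos.le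
  have h11 : 0 ≤ V * x := by positivity
  nlinarith

/-- A product set with nearly minimal edge boundary is close to a cube, with a linear
dependence on the dimension. -/
theorem upper (hd : 1 ≤ d) (ε : ℝ) (hε : 0 < ε) (A : Fin d → Finset ℤ) (hA : ∀ i, (A i).Nonempty)
    (hno : NearOptimal d ε (Fintype.piFinset A)) :
    ∃ (a : Fin d → ℤ) (k : ℕ), 1 ≤ k ∧
      ((symmDiff (Fintype.piFinset A) (cube a k)).card : ℝ) ≤
        min 1 (12 * (d * √ε)) * (Fintype.piFinset A).card := by
  classical
  have hVpos := V_pos hA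
  by_cases hx : d * √ε ≤ 1 / 12
  · obtain ⟨h1, h2⟩ := real_core hd (tt A) (fun i => mm (A i)) ε hε (fun i => one_le_mm (hA i))
      (sum_tt hd hA) (sum_mm hd hA hno) hx
    have h3 : ∀ i, ∃ c : ℤ, Finset.Ico c (c + (A i).card) = A i := by
      intro i
      suffices h : (ex (A i) true).card ≤ 1 by
        obtain ⟨c, hc⟩ := interval_of_ex (hA i) h
        exact ⟨c, hc.symm⟩
      by_contra hcon
      push Not at hcon
      have h4 : (2 : ℝ) ≤ (ex (A i) true).card := by exact_mod_cast hcon
      have h5 : (1 : ℝ) ≤ (ex (A i) false).card := by exact_mod_cast ex_pos (hA i) false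
      have h6 := h1 i
      simp only [mm] at h6
      linarith
    choose c hc using h3
    obtain ⟨k, hk, h⟩ := cube_close hd hA c hc hx h2
    rw [min_eq_right (by linarith)]
    exact ⟨c, k, hk, h⟩
  · push Not at hx
    obtain ⟨p, hp⟩ : (Fintype.piFinset A).Nonempty := by
      rw [← Finset.card_pos]
      exact_mod_cast hVpos
    refine ⟨p, 1, le_rfl, ?_⟩
    have h1 : cube p 1 = {p} := by
      ext y
      rw [cube, Fintype.mem_piFinset, Finset.mem_singleton]
      constructor
      · intro h
        funext i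
        have := h i
        rw [Finset.mem_Ico] at this
        push_cast at this
        omega
      · rintro rfl i
        rw [Finset.mem_Ico]
        push_cast
        omega
    have h2 : symmDiff (Fintype.piFinset A) (cube p 1) ⊆ Fintype.piFinset A := by
      rw [h1]
      intro y hy
      rw [Finset.mem_symmDiff] at hy
      rcases hy with ⟨h, -⟩ | ⟨h, h'⟩
      · exact h
      · rw [Finset.mem_singleton] at h
        rw [h] at h'
        exact absurd hp h'
    have h3 : ((symmDiff (Fintype.piFinset A) (cube p 1)).card : ℝ) ≤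
        (Fintype.piFinset A).card := by
      exact_mod_cast Finset.card_le_card h2
    rw [min_eq_left (by linarith), one_mul]
    exact h3

end Pool.Agent.Y384.BX.Upper
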